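import Mathlib

/-!
# Algebra for moment-curve systems of parameters on complexes with `d + 2` vertices
-/

namespace Pool.Agent.H613R3.Mom

open Finset Polynomial

universe u v

set_option linter.unusedSectionVars false

section Lin

variable {k : Type u} [Field k] {B : Type v} [CommRing B] [Algebra k B]
  {V : Type} [Fintype V] [DecidableEq V]

/-- relations for powers give relations for polynomials -/
lemma poly_rel {t : V → k} {x : V → B} {d : ℕ}
    (h : ∀ j, 1 ≤ j → j ≤ d → ∑ v, (t v ^ j) • x v = 0) (P : k[X]) (hP : P.natDegree < d) :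
    ∑ v, (t v * P.eval (t v)) • x v = 0 := by
  have h1 : ∀ v, (t v * P.eval (t v)) • x v =
      ∑ i ∈ range d, P.coeff i • ((t v ^ (i + 1)) • x v) := by
    intro v
    rw [Polynomial.eval_eq_sum_range' hP, Finset.mul_sum, Finset.sum_smul]
    apply Finset.sum_congr rfl
    intro i _
    rw [smul_smul]
    congr 1
    ring
  rw [Finset.sum_congr rfl fun v _ => h1 v, Finset.sum_comm]
  apply Finset.sum_eq_zero
  intro i hi
  rw [← Finset.smul_sum, h (i + 1) (by omega) (by have := Finset.mem_range.mp hi; omega),
    smul_zero]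

/-- With `d + 2` vertices, all variables are multiples of `s + t_v t'` modulo the moment-curve
system. -/
lemma lin {t : V → k} {x : V → B} {d : ℕ} (ht : Function.Injective t) (ht0 : ∀ v, t v ≠ 0)
    (hV : Fintype.card V = d + 2)
    (h : ∀ j, 1 ≤ j → j ≤ d → ∑ v, (t v ^ j) • x v = 0) :
    ∃ (s t' : B) (c : V → k), (∀ v, c v ≠ 0) ∧ ∀ v, x v = c v • (s + t v • t') := by
  have hcard : 1 < Fintype.card V := by omega
  obtain ⟨a, b, hab⟩ := Fintype.exists_pair_of_one_lt_card hcard
  let Q : k := ∏ w ∈ (univ.erase a).erase b, (t a - t w)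
  let Q' : k := ∏ w ∈ (univ.erase a).erase b, (t b - t w)
  have hQ : Q ≠ 0 := by
    apply Finset.prod_ne_zero_iff.mpr
    intro w hw
    rw [sub_ne_zero]
    intro h1
    have := ht h1
    subst this
    simp at hw
  have hQ' : Q' ≠ 0 := by
    apply Finset.prod_ne_zero_iff.mpr
    intro w hw
    rw [sub_ne_zero]
    intro h1
    have := ht h1
    subst this
    simp at hw
  have hdab : t b - t a ≠ 0 := by
    rw [sub_ne_zero]; intro h1; exact hab (ht h1).symm
  let X0 : B := (t a * Q) • x a
  let X1 : B := (t b * Q') • x b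
  have hform : ∀ v, (t b • X0 + t a • X1) + t v • (-(X0 + X1)) =
      (t b - t v) • X0 + (t a - t v) • X1 := by
    intro v
    rw [smul_neg, smul_add, sub_smul, sub_smul]
    abel
  have hex : ∀ v, ∃ c : k, c ≠ 0 ∧ x v = c • ((t b • X0 + t a • X1) + t v • (-(X0 + X1))) := by
    intro v
    rw [hform v]
    by_cases hva : v = a
    · subst hva
      refine ⟨((t b - t v) * (t v * Q))⁻¹, inv_ne_zero (mul_ne_zero hdab
        (mul_ne_zero (ht0 v) hQ)), ?_⟩
      rw [sub_self, zero_smul, add_zero]
      simp only [X0]
      rw [smul_smul, smul_smul, mul_assoc, inv_mul_cancel₀, one_smul]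
      exact mul_ne_zero hdab (mul_ne_zero (ht0 v) hQ)
    by_cases hvb : v = b
    · subst hvb
      have hd : t a - t v ≠ 0 := by
        rw [sub_ne_zero]; intro h1; exact hab (ht h1)
      refine ⟨((t a - t v) * (t v * Q'))⁻¹, inv_ne_zero (mul_ne_zero hd
        (mul_ne_zero (ht0 v) hQ')), ?_⟩
      rw [sub_self, zero_smul, zero_add]
      simp only [X1]
      rw [smul_smul, smul_smul, mul_assoc, inv_mul_cancel₀, one_smul]
      exact mul_ne_zero hd (mul_ne_zero (ht0 v) hQ')
    -- general vertex
    let P : k[X] := ∏ w ∈ ((univ.erase a).erase b).erase v, (X - C (t w))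
    have hvmem : v ∈ (univ.erase a).erase b := by simp [hva, hvb]
    have hPdeg : P.natDegree < d := by
      have h1 : P.natDegree = (((univ.erase a).erase b).erase v).card := by
        rw [Polynomial.natDegree_prod_of_monic _ _ (fun w _ => monic_X_sub_C _)]
        simp
      rw [h1, Finset.card_erase_of_mem hvmem, Finset.card_erase_of_mem (by simp [hab.symm]),
        Finset.card_erase_of_mem (Finset.mem_univ a), Finset.card_univ, hV]
      have : 3 ≤ Fintype.card V := by
        have h3 : ({a, b, v} : Finset V).card = 3 := by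
          rw [Finset.card_eq_three]
          exact ⟨a, b, v, hab, fun h => hva h.symm, fun h => hvb h.symm, rfl⟩
        rw [← h3, ← Finset.card_univ]
        exact Finset.card_le_card (Finset.subset_univ _)
      omega
    have hrel := poly_rel h P hPdeg
    have hPeval : ∀ y : k, P.eval y = ∏ w ∈ ((univ.erase a).erase b).erase v, (y - t w) := by
      intro y
      simp only [P]
      rw [Polynomial.eval_prod]
      simp
    have hzero : ∀ w, w ≠ v → w ≠ a → w ≠ b → P.eval (t w) = 0 := by
      intro w h1 h2 h3
      rw [hPeval]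
      apply Finset.prod_eq_zero (i := w)
      · simp [h1, h2, h3]
      · simp
    have hsum : (t a * P.eval (t a)) • x a + (t b * P.eval (t b)) • x b +
        (t v * P.eval (t v)) • x v = 0 := by
      rw [← hrel]
      rw [← Finset.add_sum_erase _ _ (Finset.mem_univ a),
        ← Finset.add_sum_erase _ _ (show b ∈ univ.erase a by simp [hab.symm]),
        ← Finset.add_sum_erase _ _ hvmem]
      rw [Finset.sum_eq_zero (s := (((univ.erase a).erase b).erase v))]
      · rw [add_zero, add_assoc]
      · intro w hw
        simp only [Finset.mem_erase, Finset.mem_univ, and_true] at hw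
        rw [hzero w hw.1 hw.2.2 hw.2.1, mul_zero, zero_smul]
    have hQa : P.eval (t a) * (t a - t v) = Q := by
      rw [hPeval]
      simp only [Q]
      rw [← Finset.mul_prod_erase _ _ hvmem, mul_comm]
    have hQb : P.eval (t b) * (t b - t v) = Q' := by
      rw [hPeval]
      simp only [Q']
      rw [← Finset.mul_prod_erase _ _ hvmem, mul_comm]
    have hPv : P.eval (t v) ≠ 0 := by
      rw [hPeval]
      apply Finset.prod_ne_zero_iff.mpr
      intro w hw
      rw [sub_ne_zero]
      intro h1
      have := ht h1
      subst this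
      simp at hw
    have hda : t a - t v ≠ 0 := by
      rw [sub_ne_zero]; intro h1; exact hva (ht h1).symm
    have hdb : t b - t v ≠ 0 := by
      rw [sub_ne_zero]; intro h1; exact hvb (ht h1).symm
    let κ : k := t v * P.eval (t v) * ((t a - t v) * (t b - t v))
    have hκ : κ ≠ 0 := mul_ne_zero (mul_ne_zero (ht0 v) hPv) (mul_ne_zero hda hdb)
    refine ⟨-κ⁻¹, neg_ne_zero.mpr (inv_ne_zero hκ), ?_⟩
    have h2 : (t b - t v) • X0 + (t a - t v) • X1 + κ • x v = 0 := by
      have h3 : ((t a - t v) * (t b - t v)) • ((t a * P.eval (t a)) • x a +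
        (t b * P.eval (t b)) • x b + (t v * P.eval (t v)) • x v) = 0 := by
        rw [hsum, smul_zero]
      rw [← h3]
      simp only [X0, X1, κ, ← hQa, ← hQb, smul_add, smul_smul]
      congr 1
      · congr 1
        · congr 1; ring
        · congr 1; ring
      · congr 1; ring
    have h4 : κ • x v = -((t b - t v) • X0 + (t a - t v) • X1) :=
      eq_neg_of_add_eq_zero_right h2
    calc x v = κ⁻¹ • (κ • x v) := by rw [smul_smul, inv_mul_cancel₀ hκ, one_smul]
      _ = (-κ⁻¹) • ((t b - t v) • X0 + (t a - t v) • X1) := by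
          rw [h4, smul_neg, neg_smul]
  choose c hc0 hc using hex
  exact ⟨_, _, c, hc0, hc⟩

end Lin

section Hom

variable {k : Type u} [Field k] {B : Type v} [CommRing B] [Algebra k B] {V : Type}

/-- homogenisation of a product of linear polynomials -/
lemma prod_hom [DecidableEq V] (s t : B) (r : V → k) (S : Finset V) :
    ∏ v ∈ S, (s + r v • t) =
      ∑ i ∈ range (S.card + 1),
        ((∏ v ∈ S, ((X : k[X]) + C (r v))).coeff i) • (s ^ i * t ^ (S.card - i)) := by
  induction S using Finset.induction_on with
  | empty => simp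
  | insert a S ha ih =>
    rw [Finset.prod_insert ha, Finset.prod_insert ha, ih, Finset.card_insert_of_notMem ha]
    set f : k[X] := ∏ v ∈ S, ((X : k[X]) + C (r v)) with hf
    have hdeg : f.coeff (S.card + 1) = 0 := by
      apply Polynomial.coeff_eq_zero_of_natDegree_lt
      rw [hf, Polynomial.natDegree_prod_of_monic _ _ (fun w _ => monic_X_add_C _)]
      simp
    have h1 : ∀ i, (((X : k[X]) + C (r a)) * f).coeff i =
        (X * f).coeff i + r a * f.coeff i := by
      intro i
      rw [add_mul, Polynomial.coeff_add, Polynomial.coeff_C_mul]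
    simp only [h1, add_smul, Finset.sum_add_distrib]
    rw [add_mul]
    congr 1
    · rw [Finset.sum_range_succ' _ (S.card + 1), Polynomial.coeff_X_mul_zero, zero_smul, add_zero,
        Finset.mul_sum]
      apply Finset.sum_congr rfl
      intro i _
      rw [Polynomial.coeff_X_mul, mul_smul_comm, Nat.succ_sub_succ]
      congr 1
      ring
    · rw [Finset.sum_range_succ _ (S.card + 1), hdeg, mul_zero, zero_smul, add_zero, Finset.mul_sum]
      apply Finset.sum_congr rfl
      intro i hi
      have hi' : i ≤ S.card := by have := Finset.mem_range.mp hi; omega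
      rw [mul_smul, smul_mul_assoc, mul_smul_comm]
      congr 2
      rw [show S.card + 1 - i = (S.card - i) + 1 by omega, pow_succ]
      ring

/-- `∏_{ζ} (X + ζ) = X ^ (p-1) - 1` over the nonzero elements of the prime field, `p` odd -/
lemma prod_units_poly (p : ℕ) [hp : Fact p.Prime] [CharP k p] (hodd : p ≠ 2) :
    ∏ z : (ZMod p)ˣ, ((X : k[X]) + C (ZMod.castHom (dvd_refl p) k (z : ZMod p))) =
      X ^ (p - 1) - 1 := by
  classical
  have hp1 : p - 1 ≠ 0 := by have := hp.out.two_le; omega
  set φ := ZMod.castHom (dvd_refl p) k with hφ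
  have hinj : Function.Injective φ := φ.injective
  have hmonic : (X ^ (p - 1) - 1 : k[X]).Monic := Polynomial.monic_X_pow_sub_C (1 : k) hp1
  have hdeg : (X ^ (p - 1) - 1 : k[X]).natDegree = p - 1 := by
    have := Polynomial.natDegree_X_pow_sub_C (n := p - 1) (r := (1 : k))
    simpa using this
  let S : Finset k := univ.image fun z : (ZMod p)ˣ => -φ z
  have hSinj : Function.Injective fun z : (ZMod p)ˣ => -φ z := by
    intro z w h
    have h1 : φ z = φ w := neg_injective h
    exact Units.ext (hinj h1)
  have hScard : S.card = p - 1 := by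
    rw [Finset.card_image_of_injective _ hSinj, Finset.card_univ, ZMod.card_units]
  have hroot : ∀ a ∈ S, (X ^ (p - 1) - 1 : k[X]).IsRoot a := by
    intro a ha
    obtain ⟨z, _, rfl⟩ := Finset.mem_image.mp ha
    have h1 : (z : ZMod p) ^ (p - 1) = 1 := ZMod.pow_card_sub_one_eq_one z.ne_zero
    have h2 : Even (p - 1) := by
      have := hp.out.even_sub_one hodd
      exact this
    rw [Polynomial.IsRoot, Polynomial.eval_sub, Polynomial.eval_pow, Polynomial.eval_X,
      Polynomial.eval_one, h2.neg_pow, ← map_pow, h1, map_one, sub_self]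
  have hle : S.val ≤ (X ^ (p - 1) - 1 : k[X]).roots := by
    rw [Multiset.le_iff_subset S.nodup]
    intro a ha
    rw [Polynomial.mem_roots hmonic.ne_zero]
    exact hroot a ha
  have heq : S.val = (X ^ (p - 1) - 1 : k[X]).roots := by
    apply Multiset.eq_of_le_of_card_le hle
    refine (Polynomial.card_roots' _).trans ?_
    rw [hdeg]
    exact hScard.ge
  have h := Polynomial.prod_multiset_X_sub_C_of_monic_of_roots_card_eq hmonic (by
    rw [← heq, hdeg]; exact hScard)
  rw [← h, ← heq]
  have h5 : (Multiset.map (fun a => X - C a) S.val).prod = ∏ a ∈ S, (X - C a) := rfl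
  rw [h5, Finset.prod_image (fun z _ w _ hzw => hSinj hzw)]
  apply Finset.prod_congr rfl
  intro z _
  rw [map_neg, sub_neg_eq_add]

/-- the homogeneous form -/
lemma prod_units (p : ℕ) [hp : Fact p.Prime] [CharP k p] (hodd : p ≠ 2) (s t : B) :
    ∏ z : (ZMod p)ˣ, (s + (ZMod.castHom (dvd_refl p) k (z : ZMod p)) • t) =
      s ^ (p - 1) - t ^ (p - 1) := by
  classical
  have hp1 : p - 1 ≠ 0 := by have := hp.out.two_le; omega
  rw [prod_hom, prod_units_poly p hodd, Finset.card_univ, ZMod.card_units]
  simp only [Polynomial.coeff_sub, Polynomial.coeff_X_pow, Polynomial.coeff_one, sub_smul,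
    ite_smul, one_smul, zero_smul, Finset.sum_sub_distrib]
  rw [Finset.sum_ite_eq', Finset.sum_ite_eq']
  simp

end Hom

end Pool.Agent.H613R3.Mom
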